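import Mathlib
import Pool.Agent.Lib.MP_7e3249_co.Limit

/-!
# `c_{m,k,n}(N)` for all parameters: generating function and leading constant
-/

set_option autoImplicit false

namespace Pool.Agent.Results.MP_7e3249_co.AllParameters

open Pool.Agent.Lib.MP_7e3249_co PowerSeries Filter Topology

/-- **Theorem.** Let `m ≥ 2`, `k ≥ 1`, `n ≥ 1`. There are injective rankings `ρ` of the finite sets
of words by natural numbers, and for each of them

* the generating function of `N ↦ c_{m,k,n}(N)` is the finite sum of explicit rational functions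
  displayed below;
* `c_{m,k,n}(n l) / l ^ (m ^ (k - 1) * (m - 1))` tends to `m ^ (2 (k - 1)) * leadConst m k ρ`, and
  this explicit rational number is positive. -/
theorem result (m k n : ℕ) (hm : 2 ≤ m) (hk : 1 ≤ k) (hn : 1 ≤ n) :
    (∃ ρ : Finset (List (Fin m)) → ℕ, Function.Injective ρ) ∧
    ∀ ρ : Finset (List (Fin m)) → ℕ, Function.Injective ρ →
      PowerSeries.mk (fun N => (c m k n N : ℚ)) =
        ∑ l ∈ Finset.range (k - 1), (m : ℚ⟦X⟧) ^ l * X ^ (n * l) +
        ∑ u ∈ words m (k - 1), ∑ v ∈ words m (k - 1),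
          ∑ p ∈ configs List.dropLast List.tail (words m k) ρ u v,
            X ^ (n * (k - 1 + p.1.card)) *
              ∏ C ∈ p.2, (X ^ (n * C.card) * (1 - X ^ (n * C.card))⁻¹) ∧
      Tendsto (fun l : ℕ => (c m k n (n * l) : ℝ) / (l : ℝ) ^ (m ^ (k - 1) * (m - 1))) atTop
        (𝓝 ((m : ℝ) ^ (2 * (k - 1)) * leadConst m k ρ)) ∧
      0 < leadConst m k ρ := by
  obtain ⟨M, rfl⟩ : ∃ M, m = M + 1 := ⟨m - 1, by omega⟩
  obtain ⟨K, rfl⟩ : ∃ K, k = K + 1 := ⟨k - 1, by omega⟩
  refine ⟨⟨Encodable.encode, Encodable.encode_injective⟩, fun ρ hρ => ⟨?_, ?_, ?_⟩⟩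
  · rw [genfun hn hρ, Nat.add_sub_cancel, Finset.sum_product]
  · have h := c_tendsto (K := K) (n := n) (by omega : 1 ≤ M) hn hρ
    rw [Nat.add_sub_cancel, Nat.add_sub_cancel, Nat.mul_comm ((M + 1) ^ K) M]
    exact h
  · exact leadConst_pos (by omega) hρ

end Pool.Agent.Results.MP_7e3249_co.AllParameters
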