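import Mathlib
import Pool.Agent.Lib.MP_7e3249_co.Defs
import Pool.Agent.Lib.MP_7e3249_co.Basic
import Pool.Agent.Lib.MP_7e3249_co.Binary

/-!
# Exact number of binary 2-abelian classes of length `N` containing an `n`th power
-/

namespace Pool.Agent.Results.MP_7e3249_co.BinaryTwoAbelian

open Pool.Agent.Lib.MP_7e3249_co

/-- **Theorem.** The number of 2-abelian equivalence classes of binary words of length `N` that
contain an `n`th power is `(N/n)^2 - N/n + 2` if `N > 0` and `n ∣ N`, it is `0` if `n ∤ N`, and it
is `1` if `N = 0`. -/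
theorem result (n N : ℕ) (hn : 1 ≤ n) :
    c 2 2 n N = if N = 0 then 1 else if n ∣ N then (N / n) ^ 2 - N / n + 2 else 0 := by
  split_ifs with h0 hd
  · subst h0
    have h : powerClasses 2 2 n 0 = {{[]}} := by
      ext C
      simp only [powerClasses, Set.mem_ofPred_eq, Set.mem_singleton_iff]
      constructor
      · rintro ⟨⟨u, hu, rfl⟩, -⟩
        have hu' : u = [] := List.length_eq_zero_iff.mp hu
        subst hu'
        ext v
        simp only [Set.mem_ofPred_eq, Set.mem_singleton_iff]
        constructor
        · rintro ⟨h, -⟩; exact List.length_eq_zero_iff.mp h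
        · rintro rfl; exact ⟨rfl, KAbEq.refl _ _⟩
      · rintro rfl
        refine ⟨⟨[], rfl, ?_⟩, [], by simp [wpow]⟩
        ext v
        simp only [Set.mem_ofPred_eq, Set.mem_singleton_iff]
        constructor
        · rintro rfl; exact ⟨rfl, KAbEq.refl _ _⟩
        · rintro ⟨h, -⟩; exact List.length_eq_zero_iff.mp h
    unfold c
    rw [h, Set.ncard_singleton]
  · obtain ⟨l, rfl⟩ := hd
    rw [Nat.mul_div_cancel_left l (by omega)]
    apply c_two_two n l hn
    rcases Nat.eq_zero_or_pos l with h | h
    · subst h; simp at h0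
    · exact h
  · unfold c
    have h : powerClasses 2 2 n N = ∅ := by
      apply Set.eq_empty_of_forall_notMem
      rintro C ⟨⟨u, hu, rfl⟩, w, ⟨hw, -⟩⟩
      rw [length_wpow] at hw
      exact hd ⟨_, hw.symm⟩
    rw [h, Set.ncard_empty]

end Pool.Agent.Results.MP_7e3249_co.BinaryTwoAbelian
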